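import Mathlib

/-!
# `C_p(X)` and `C_c(X)` for `P`-spaces of Lindelöf number at most `ℵ₁` are `s`-groups

Tools: closed neighbourhood chains, sequentially continuous set functions on `ω₁`,
Ulam matrices.
-/

open Set Filter Topology Cardinal

namespace Pool.Agent.Y445

universe u v

/-! ### Neighbourhood chains -/

/-- A chain of closed neighbourhoods `W n` of `0` with `W (n+1) + W (n+1) ⊆ W n`. -/
structure NChain (H : Type v) [AddGroup H] [TopologicalSpace H] where
  W : ℕ → Set H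
  nhds : ∀ n, W n ∈ 𝓝 (0 : H)
  closed : ∀ n, IsClosed (W n)
  add : ∀ n a b, a ∈ W (n + 1) → b ∈ W (n + 1) → a + b ∈ W n

namespace NChain

variable {H : Type v} [AddGroup H] [TopologicalSpace H]

/-- shift of a chain -/
def shift (c : NChain H) (j : ℕ) : NChain H where
  W := fun n => c.W (n + j)
  nhds := fun n => c.nhds _
  closed := fun n => c.closed _
  add := fun n a b ha hb => by
    have h1 : n + 1 + j = (n + j) + 1 := by omega
    rw [h1] at ha hb
    exact c.add _ a b ha hb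

theorem zero_mem (c : NChain H) (n : ℕ) : (0 : H) ∈ c.W n := mem_of_mem_nhds (c.nhds n)

theorem exists_chain [IsTopologicalAddGroup H] {U : Set H} (hU : U ∈ 𝓝 (0 : H)) :
    ∃ c : NChain H, c.W 0 ⊆ U := by
  classical
  have step : ∀ V : {V : Set H // V ∈ 𝓝 (0 : H)}, ∃ V' : {V : Set H // V ∈ 𝓝 (0 : H)},
      IsClosed V'.1 ∧ ∀ a ∈ V'.1, ∀ b ∈ V'.1, a + b ∈ V.1 := by
    intro V
    obtain ⟨V', h1, h2, -, h4⟩ := exists_closed_nhds_zero_neg_eq_add_subset V.2
    exact ⟨⟨V', h1⟩, h2, fun a ha b hb => h4 (Set.add_mem_add ha hb)⟩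
  choose f hf1 hf2 using step
  let g : ℕ → {V : Set H // V ∈ 𝓝 (0 : H)} := fun n => Nat.rec (f ⟨U, hU⟩) (fun _ V => f V) n
  refine ⟨⟨fun n => (g n).1, fun n => (g n).2, ?_, ?_⟩, ?_⟩
  · intro n
    cases n with
    | zero => exact hf1 _
    | succ n => exact hf1 _
  · intro n a b ha hb
    exact hf2 _ a ha b hb
  · intro a ha
    have := hf2 ⟨U, hU⟩ a ha 0 (mem_of_mem_nhds (f ⟨U, hU⟩).2)
    simpa using this

end NChain

/-! ### Sequentially continuous additive set functions -/

/-- A finitely additive, sequentially continuous function on the power set of `I`. -/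
structure SetFn (I : Type u) (H : Type v) [AddGroup H] [TopologicalSpace H] where
  m : Set I → H
  add : ∀ B C, Disjoint B C → m (B ∪ C) = m B + m C
  seq : ∀ (B : ℕ → Set I) (C : Set I), (∀ i, ∀ᶠ k in atTop, (i ∈ B k ↔ i ∈ C)) →
    Tendsto (fun k => m (B k)) atTop (𝓝 (m C))

namespace SetFn

variable {I : Type u} {H : Type v} [AddGroup H] [TopologicalSpace H]

theorem empty (μ : SetFn I H) : μ.m ∅ = 0 := by
  have h := μ.add ∅ ∅ (by simp)
  rw [Set.union_empty] at h
  exact left_eq_add.mp h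

theorem tendsto_zero (μ : SetFn I H) (B : ℕ → Set I)
    (hB : ∀ j k, j ≠ k → Disjoint (B j) (B k)) :
    Tendsto (fun k => μ.m (B k)) atTop (𝓝 0) := by
  have h := μ.seq B ∅ (by
    intro i
    by_cases hi : ∃ j, i ∈ B j
    · obtain ⟨j, hj⟩ := hi
      filter_upwards [eventually_gt_atTop j] with k hk
      have := (hB j k (by omega)).le_bot
      constructor
      · intro h
        exact (this ⟨hj, h⟩).elim
      · intro h
        exact h.elim
    · push Not at hi
      exact Eventually.of_forall fun k => ⟨fun h => (hi k h).elim, fun h => h.elim⟩)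
  rwa [μ.empty] at h

/-- Chains of small pieces add up to small sets. -/
theorem sum_mem (μ : SetFn I H) (c : NChain H) (B : ℕ → Set I)
    (hB : ∀ j k, j ≠ k → Disjoint (B j) (B k)) (hm : ∀ n, μ.m (B n) ∈ c.W (n + 1)) :
    ∀ k j, μ.m (⋃ n ∈ {n : ℕ | j ≤ n ∧ n < j + k}, B n) ∈ c.W j := by
  intro k
  induction k with
  | zero =>
    intro j
    have : (⋃ n ∈ {n : ℕ | j ≤ n ∧ n < j + 0}, B n) = ∅ := by
      ext i
      simp only [mem_iUnion, mem_setOf_eq, mem_empty_iff_false, iff_false]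
      rintro ⟨n, ⟨h1, h2⟩, -⟩
      omega
    rw [this, μ.empty]
    exact c.zero_mem j
  | succ k ih =>
    intro j
    have h1 : (⋃ n ∈ {n : ℕ | j ≤ n ∧ n < j + (k + 1)}, B n) =
        B j ∪ ⋃ n ∈ {n : ℕ | j + 1 ≤ n ∧ n < j + 1 + k}, B n := by
      ext i
      simp only [mem_iUnion, mem_setOf_eq, mem_union, exists_prop]
      constructor
      · rintro ⟨n, ⟨h1, h2⟩, h3⟩
        rcases Nat.eq_or_lt_of_le h1 with h | h
        · subst h
          exact Or.inl h3
        · exact Or.inr ⟨n, ⟨h, by omega⟩, h3⟩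
      · rintro (h | ⟨n, ⟨h1, h2⟩, h3⟩)
        · exact ⟨j, ⟨le_rfl, by omega⟩, h⟩
        · exact ⟨n, ⟨by omega, by omega⟩, h3⟩
    rw [h1, μ.add]
    · exact c.add j _ _ (hm j) (ih (j + 1))
    · rw [Set.disjoint_iUnion₂_right]
      intro n hn
      exact hB _ _ (by have := hn.1; omega)

theorem iUnion_mem (μ : SetFn I H) (c : NChain H) (B : ℕ → Set I)
    (hB : ∀ j k, j ≠ k → Disjoint (B j) (B k)) (hm : ∀ n, μ.m (B n) ∈ c.W (n + 1)) :
    μ.m (⋃ n, B n) ∈ c.W 0 := by
  have h := μ.seq (fun k => ⋃ n ∈ {n : ℕ | 0 ≤ n ∧ n < 0 + k}, B n) (⋃ n, B n) (by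
    intro i
    by_cases hi : ∃ j, i ∈ B j
    · obtain ⟨j, hj⟩ := hi
      filter_upwards [eventually_gt_atTop j] with k hk
      constructor
      · intro _
        exact mem_iUnion.2 ⟨j, hj⟩
      · intro _
        simp only [mem_iUnion, mem_setOf_eq, exists_prop]
        exact ⟨j, ⟨by omega, by omega⟩, hj⟩
    · refine Eventually.of_forall fun k => ⟨fun h => ?_, fun h => ?_⟩
      · simp only [mem_iUnion, mem_setOf_eq, exists_prop] at h
        obtain ⟨n, -, h⟩ := h
        exact (hi ⟨n, h⟩).elim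
      · exact (hi (mem_iUnion.1 h)).elim)
  exact (c.closed 0).mem_of_tendsto h (Eventually.of_forall fun k => μ.sum_mem c B hB hm k 0)

/-- countable sets: limit of finite pieces -/
theorem countable_mem (μ : SetFn I H) {V : Set H} (hV : IsClosed V) {S : Set I}
    (hS : S.Countable) (h : ∀ T ⊆ S, T.Finite → μ.m T ∈ V) : μ.m S ∈ V := by
  obtain ⟨e, he⟩ := Set.countable_iff_exists_injOn.1 hS
  have hfin : ∀ k, {i ∈ S | e i < k}.Finite := by
    intro k
    refine Set.Finite.of_finite_image (f := e) ((Set.finite_lt_nat k).subset ?_) ?_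
    · rintro _ ⟨i, hi, rfl⟩
      exact hi.2
    · exact he.mono fun i hi => hi.1
  have h1 := μ.seq (fun k => {i ∈ S | e i < k}) S (by
    intro i
    filter_upwards [eventually_gt_atTop (e i)] with k hk
    exact ⟨fun h => h.1, fun h => ⟨h, hk⟩⟩)
  exact hV.mem_of_tendsto h1 (Eventually.of_forall fun k => h _ (fun i hi => hi.1) (hfin k))

section Ulam

variable [LinearOrder I]

/-- For disjoint sets all but finitely many are hereditarily small. -/
theorem finite_bad (μ : SetFn I H) {V : Set H} (hV : V ∈ 𝓝 (0 : H)) (A : I → Set I)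
    (hA : ∀ a b, a ≠ b → Disjoint (A a) (A b)) :
    {a : I | ∃ B ⊆ A a, μ.m B ∉ V}.Finite := by
  by_contra hinf
  have hinf : {a : I | ∃ B ⊆ A a, μ.m B ∉ V}.Infinite := hinf
  let e := Set.Infinite.natEmbedding _ hinf
  have he : ∀ k, ∃ B ⊆ A (e k).1, μ.m B ∉ V := fun k => (e k).2
  choose B hB1 hB2 using he
  have h := μ.tendsto_zero B (by
    intro j k hjk
    refine (hA _ _ ?_).mono (hB1 j) (hB1 k)
    intro h
    exact hjk (e.injective (Subtype.ext h)))
  obtain ⟨k, hk⟩ := (h.eventually hV).exists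
  exact hB2 k hk

/-- Ulam matrix argument: some tail is hereditarily small. -/
theorem exists_tail (μ : SetFn I H) (c : NChain H)
    (hI : ∀ a : I, (Set.Iic a).Countable) (hunc : ¬ (Set.univ : Set I).Countable) :
    ∃ a : I, ∀ B ⊆ Set.Ioi a, μ.m B ∈ c.W 0 := by
  classical
  have h1 : ∀ a : I, ∃ e : I → ℕ, Set.InjOn e (Set.Iic a) := fun a =>
    Set.countable_iff_exists_injOn.1 (hI a)
  choose e he using h1
  let A : ℕ → I → Set I := fun n a => {x | a < x ∧ e x a = n}
  have hA : ∀ n a b, a ≠ b → Disjoint (A n a) (A n b) := by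
    intro n a b hab
    rw [Set.disjoint_left]
    rintro x ⟨h1, h2⟩ ⟨h3, h4⟩
    exact hab (he x h1.le h3.le (h2.trans h4.symm))
  have hbad : ∀ n, {a : I | ∃ B ⊆ A n a, μ.m B ∉ c.W (n + 1)}.Finite := fun n =>
    μ.finite_bad (c.nhds _) (A n) (hA n)
  have hcount : (⋃ n, {a : I | ∃ B ⊆ A n a, μ.m B ∉ c.W (n + 1)}).Countable :=
    Set.countable_iUnion fun n => (hbad n).countable
  have hne : ∃ a, a ∉ ⋃ n, {a : I | ∃ B ⊆ A n a, μ.m B ∉ c.W (n + 1)} := by
    by_contra hcon
    push Not at hcon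
    exact hunc (hcount.mono fun a _ => hcon a)
  obtain ⟨a, ha⟩ := hne
  have ha' : ∀ n, ∀ B ⊆ A n a, μ.m B ∈ c.W (n + 1) := by
    intro n B hB
    by_contra hcon
    exact ha (mem_iUnion.2 ⟨n, B, hB, hcon⟩)
  refine ⟨a, fun B hB => ?_⟩
  have hU : B = ⋃ n, (B ∩ A n a) := by
    ext x
    simp only [mem_iUnion, mem_inter_iff]
    constructor
    · intro hx
      exact ⟨e x a, hx, hB hx, rfl⟩
    · rintro ⟨n, h, -⟩
      exact h
  rw [hU]
  refine μ.iUnion_mem c _ ?_ ?_
  · intro j k hjk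
    rw [Set.disjoint_left]
    rintro x ⟨-, -, h2⟩ ⟨-, -, h4⟩
    exact hjk (h2.symm.trans h4)
  · intro n
    exact ha' n _ inter_subset_right

/-- countable sets are bounded -/
theorem exists_bound (hI : ∀ a : I, (Set.Iic a).Countable)
    (hunc : ¬ (Set.univ : Set I).Countable) (s : ℕ → I) : ∃ a : I, ∀ n, s n ≤ a := by
  have hcount : (⋃ n, Set.Iic (s n)).Countable := Set.countable_iUnion fun n => hI _
  have hne : ∃ a, a ∉ ⋃ n, Set.Iic (s n) := by
    by_contra hcon
    push Not at hcon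
    exact hunc (hcount.mono fun a _ => hcon a)
  obtain ⟨a, ha⟩ := hne
  refine ⟨a, fun n => ?_⟩
  by_contra hcon
  push Not at hcon
  exact ha (mem_iUnion.2 ⟨n, hcon.le⟩)

/-- A set function that is null on singletons is null. -/
theorem null_of_singleton (μ : SetFn I H) (c : NChain H)
    (hI : ∀ a : I, (Set.Iic a).Countable) (hunc : ¬ (Set.univ : Set I).Countable)
    (hs : ∀ a n, μ.m {a} ∈ c.W n) (B : Set I) (n : ℕ) : μ.m B ∈ c.W n := by
  have h1 : ∀ j, ∃ a : I, ∀ B ⊆ Set.Ioi a, μ.m B ∈ c.W j := by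
    intro j
    obtain ⟨a, ha⟩ := μ.exists_tail (c.shift j) hI hunc
    refine ⟨a, fun B hB => ?_⟩
    have := ha B hB
    simpa [NChain.shift] using this
  choose s hs' using h1
  obtain ⟨a, ha⟩ := exists_bound hI hunc s
  -- finite sets
  have hfin : ∀ T : Set I, T.Finite → ∀ n, μ.m T ∈ c.W n := by
    intro T hT
    induction T, hT using Set.Finite.induction_on with
    | empty =>
      intro n
      rw [μ.empty]
      exact c.zero_mem n
    | @insert x S hx _ ih =>
      intro n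
      have : insert x S = {x} ∪ S := rfl
      rw [this, μ.add _ _ (Set.disjoint_singleton_left.2 hx)]
      exact c.add n _ _ (hs x _) (ih _)
  have hB : B = (B ∩ Set.Iic a) ∪ (B ∩ Set.Ioi a) := by
    rw [← Set.inter_union_distrib_left, Set.Iic_union_Ioi, Set.inter_univ]
  rw [hB, μ.add _ _ ?_]
  · refine c.add n _ _ ?_ ?_
    · exact μ.countable_mem (c.closed _) ((hI a).mono inter_subset_right)
        fun T _ hT => hfin T hT _
    · refine hs' (n + 1) _ ?_
      rintro x ⟨-, hx⟩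
      exact lt_of_le_of_lt (ha _) hx
  · rw [Set.disjoint_left]
    rintro x ⟨-, h1⟩ ⟨-, h2⟩
    exact absurd h1 (not_le.2 h2)

end Ulam

end SetFn

end Pool.Agent.Y445
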