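import Pool.Agent.Y445.SGroup

open Set Filter Topology Cardinal

set_option linter.deprecated false

namespace Pool.Agent.Y445

universe u v w

/-- A `P`-space: countable intersections of open sets are open. -/
def IsPSpace (X : Type u) [TopologicalSpace X] : Prop :=
  ∀ U : ℕ → Set X, (∀ n, IsOpen (U n)) → IsOpen (⋂ n, U n)

/-- The Lindelöf number is at most `ℵ₁`: every open cover has a subcover with at most `ℵ₁`
members. -/
def LindelofNumberLeAlephOne (X : Type u) [TopologicalSpace X] : Prop :=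
  ∀ 𝒰 : Set (Set X), (∀ U ∈ 𝒰, IsOpen U) → ⋃₀ 𝒰 = Set.univ →
    ∃ 𝒱 ⊆ 𝒰, #𝒱 ≤ ℵ₁ ∧ ⋃₀ 𝒱 = Set.univ

/-- `C_p(X)`: the additive group of continuous functions `X → ℝ` as a subgroup of the product
group `X → ℝ`; its topology is the topology of pointwise convergence. -/
def Cp (X : Type u) [TopologicalSpace X] : AddSubgroup (X → ℝ) where
  carrier := {f | Continuous f}
  zero_mem' := show Continuous (0 : X → ℝ) from continuous_zero
  add_mem' := fun hf hg => Continuous.add hf hg
  neg_mem' := fun hf => Continuous.neg hf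

/-- An `s`-group: a Hausdorff topological group such that all its sequentially continuous
homomorphisms to Hausdorff topological groups are continuous. -/
def IsSGroup (G : Type u) [AddGroup G] [TopologicalSpace G] : Prop :=
  IsTopologicalAddGroup G ∧ T2Space G ∧
  ∀ (H : Type v) [AddGroup H] [TopologicalSpace H] [IsTopologicalAddGroup H] [T2Space H]
    (φ : G →+ H), SeqContinuous φ → Continuous φ

section P

variable {X : Type u} [TopologicalSpace X]

theorem IsPSpace.biInter (hP : IsPSpace X) {ι : Type w} {S : Set ι} (hS : S.Countable)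
    (U : ι → Set X) (hU : ∀ i ∈ S, IsOpen (U i)) : IsOpen (⋂ i ∈ S, U i) := by
  rcases S.eq_empty_or_nonempty with h | h
  · subst h
    simp
  · obtain ⟨f, hf⟩ := hS.exists_eq_range h
    subst hf
    rw [Set.biInter_range]
    exact hP _ fun n => hU _ ⟨n, rfl⟩

/-- zero sets are open in a `P`-space -/
theorem IsPSpace.isOpen_zero (hP : IsPSpace X) {f : X → ℝ} (hf : Continuous f) :
    IsOpen {x | f x = 0} := by
  have : {x | f x = 0} = ⋂ n : ℕ, {x | |f x| < 1 / ((n : ℝ) + 1)} := by
    ext x
    simp only [mem_iInter]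
    constructor
    · intro h n
      have h : f x = 0 := h
      show |f x| < 1 / ((n : ℝ) + 1)
      rw [h, abs_zero]
      positivity
    · intro h
      show f x = 0
      by_contra hne
      obtain ⟨n, hn⟩ := exists_nat_one_div_lt (abs_pos.2 hne)
      exact absurd (h n) (not_lt.2 hn.le)
  rw [this]
  exact hP _ fun n => isOpen_lt (continuous_abs.comp hf) continuous_const

/-- clopen base in a regular `P`-space -/
theorem IsPSpace.exists_clopen [RegularSpace X] (hP : IsPSpace X) {x : X} {U : Set X}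
    (hU : IsOpen U) (hx : x ∈ U) : ∃ V : Set X, IsClopen V ∧ x ∈ V ∧ V ⊆ U := by
  have step : ∀ V : {V : Set X // IsOpen V ∧ x ∈ V}, ∃ V' : {V : Set X // IsOpen V ∧ x ∈ V},
      closure V'.1 ⊆ V.1 := by
    intro V
    obtain ⟨T, hT1, hT2, hT3⟩ := exists_mem_nhds_isClosed_subset (V.2.1.mem_nhds V.2.2)
    refine ⟨⟨interior T, isOpen_interior, mem_interior_iff_mem_nhds.2 hT1⟩, ?_⟩
    exact (closure_minimal interior_subset hT2).trans hT3
  choose f hf using step
  let g : ℕ → {V : Set X // IsOpen V ∧ x ∈ V} := fun n => Nat.rec ⟨U, hU, hx⟩ (fun _ V => f V) n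
  have hg : ∀ n, closure (g (n + 1)).1 ⊆ (g n).1 := fun n => hf _
  have heq : (⋂ n, (g n).1) = ⋂ n, closure (g n).1 := by
    apply Set.Subset.antisymm
    · exact Set.iInter_mono fun n => subset_closure
    · refine Set.subset_iInter fun n => ?_
      exact (Set.iInter_subset _ (n + 1)).trans (hg n)
  refine ⟨⋂ n, (g n).1, ⟨?_, ?_⟩, ?_, ?_⟩
  · rw [heq]
    exact isClosed_iInter fun n => isClosed_closure
  · exact hP _ fun n => (g n).2.1
  · exact mem_iInter.2 fun n => (g n).2.2
  · exact Set.iInter_subset _ 0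

end P

section Main

variable {X : Type u} [TopologicalSpace X]

theorem Cp.tendsto_iff {f : ℕ → Cp X} {g : Cp X} :
    Tendsto f atTop (𝓝 g) ↔ ∀ x, Tendsto (fun k => (f k : X → ℝ) x) atTop (𝓝 ((g : X → ℝ) x)) := by
  rw [tendsto_subtype_rng, tendsto_pi_nhds]

open Classical in
/-- restriction of a continuous function to a clopen piece -/
noncomputable def restr {I : Type w} (p : X → I) (hp : ∀ B : Set I, IsOpen (p ⁻¹' B)) (f : Cp X)
    (B : Set I) : Cp X :=
  ⟨(p ⁻¹' B).indicator f.1, by
    have hcl : IsClopen (p ⁻¹' B) := ⟨by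
      rw [← isOpen_compl_iff]
      exact hp Bᶜ, hp B⟩
    refine Continuous.indicator ?_ f.2
    intro a ha
    rw [hcl.frontier_eq] at ha
    exact ha.elim⟩

theorem restr_of_mem {I : Type w} (p : X → I) (hp : ∀ B : Set I, IsOpen (p ⁻¹' B)) (f : Cp X)
    {B : Set I} {x : X} (hx : p x ∈ B) : (restr p hp f B : X → ℝ) x = (f : X → ℝ) x :=
  Set.indicator_of_mem (show x ∈ p ⁻¹' B from hx) _

theorem restr_of_notMem {I : Type w} (p : X → I) (hp : ∀ B : Set I, IsOpen (p ⁻¹' B)) (f : Cp X)
    {B : Set I} {x : X} (hx : p x ∉ B) : (restr p hp f B : X → ℝ) x = 0 :=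
  Set.indicator_of_notMem (show x ∉ p ⁻¹' B from hx) _

/-- the set function of a homomorphism and a function -/
noncomputable def setFn {I : Type w} (p : X → I) (hp : ∀ B : Set I, IsOpen (p ⁻¹' B))
    {H : Type v} [AddGroup H] [TopologicalSpace H] (φ : Cp X →+ H) (hφ : SeqContinuous φ)
    (f : Cp X) : SetFn I H where
  m := fun B => φ (restr p hp f B)
  add := by
    intro B C hBC
    rw [← map_add]
    congr 1
    apply Subtype.ext
    funext x
    show (restr p hp f (B ∪ C) : X → ℝ) x = (restr p hp f B : X → ℝ) x + (restr p hp f C : X → ℝ) x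
    by_cases h1 : p x ∈ B
    · have h2 : p x ∉ C := fun h2 => (Set.disjoint_left.1 hBC) h1 h2
      rw [restr_of_mem p hp f (Or.inl h1), restr_of_mem p hp f h1, restr_of_notMem p hp f h2,
        add_zero]
    · by_cases h2 : p x ∈ C
      · rw [restr_of_mem p hp f (Or.inr h2), restr_of_notMem p hp f h1, restr_of_mem p hp f h2,
          zero_add]
      · rw [restr_of_notMem p hp f (fun h => h.elim h1 h2), restr_of_notMem p hp f h1,
          restr_of_notMem p hp f h2, zero_add]
  seq := by
    intro B C hBC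
    apply hφ
    rw [Cp.tendsto_iff]
    intro x
    refine tendsto_const_nhds.congr' ?_
    filter_upwards [hBC (p x)] with k hk
    by_cases h1 : p x ∈ C
    · rw [restr_of_mem p hp f h1, restr_of_mem p hp f (hk.2 h1)]
    · rw [restr_of_notMem p hp f h1, restr_of_notMem p hp f (fun h => h1 (hk.1 h))]

/-- pull back of a function on the index set -/
noncomputable def pull {I : Type w} (p : X → I) (hp : ∀ B : Set I, IsOpen (p ⁻¹' B))
    (y : I → ℝ) : Cp X :=
  ⟨fun x => y (p x), by
    show Continuous fun x => y (p x)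
    refine continuous_def.2 fun s _ => ?_
    exact hp (y ⁻¹' s)⟩

/-- Local control: near each point, functions vanishing at the point are mapped into `N`. -/
theorem local_control [RegularSpace X] (hP : IsPSpace X) {H : Type v} [AddGroup H]
    [TopologicalSpace H] (φ : Cp X →+ H) (hφ : SeqContinuous φ) (c : NChain H) (x : X) :
    ∃ U : Set X, IsOpen U ∧ x ∈ U ∧ ∀ f : Cp X, (∀ y ∉ U, (f : X → ℝ) y = 0) →
      (f : X → ℝ) x = 0 → ∀ n, φ f ∈ c.W n := by
  have key : ∀ n, ∃ U : Set X, IsOpen U ∧ x ∈ U ∧ ∀ f : Cp X, (∀ y ∉ U, (f : X → ℝ) y = 0) →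
      (f : X → ℝ) x = 0 → φ f ∈ c.W n := by
    intro n
    by_contra hcon
    push Not at hcon
    have step : ∀ V : {V : Set X // IsOpen V ∧ x ∈ V}, ∃ f : Cp X,
      (∀ y ∉ V.1, (f : X → ℝ) y = 0) ∧ (f : X → ℝ) x = 0 ∧ φ f ∉ c.W n := by
      intro V
      exact hcon V.1 V.2.1 V.2.2
    choose F hF1 hF2 hF3 using step
    let nxt : {V : Set X // IsOpen V ∧ x ∈ V} → {V : Set X // IsOpen V ∧ x ∈ V} := fun V =>
      ⟨V.1 ∩ {y | (F V : X → ℝ) y = 0}, V.2.1.inter (hP.isOpen_zero (F V).2), V.2.2, hF2 V⟩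
    let g : ℕ → {V : Set X // IsOpen V ∧ x ∈ V} := fun n =>
      Nat.rec ⟨Set.univ, isOpen_univ, mem_univ x⟩ (fun _ V => nxt V) n
    have hg1 : ∀ n, (g (n + 1)).1 = (g n).1 ∩ {y | (F (g n) : X → ℝ) y = 0} := fun n => rfl
    have hg2 : ∀ k j, j < k → ∀ y ∈ (g k).1, (F (g j) : X → ℝ) y = 0 := by
      intro k
      induction k with
      | zero => intro j hj; omega
      | succ k ih =>
        intro j hj y hy
        rw [hg1] at hy
        rcases Nat.lt_succ_iff_lt_or_eq.1 hj with h | h
        · exact ih j h y hy.1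
        · subst h
          exact hy.2
    have hlim : Tendsto (fun k => F (g k)) atTop (𝓝 0) := by
      rw [Cp.tendsto_iff]
      intro y
      refine tendsto_const_nhds.congr' ?_
      by_cases hy : ∃ j, (F (g j) : X → ℝ) y ≠ 0
      · obtain ⟨j, hj⟩ := hy
        filter_upwards [eventually_gt_atTop j] with k hk
        by_cases h : y ∈ (g k).1
        · exact absurd (hg2 k j hk y h) hj
        · exact (hF1 (g k) y h).symm
      · push Not at hy
        exact Eventually.of_forall fun k => (hy k).symm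
    have h0 := hφ hlim
    rw [map_zero] at h0
    obtain ⟨k, hk⟩ := (h0.eventually (c.nhds n)).exists
    exact hF3 (g k) hk
  choose U hU1 hU2 hU3 using key
  refine ⟨⋂ n, U n, hP _ hU1, mem_iInter.2 hU2, ?_⟩
  intro f hf hfx n
  refine hU3 n f ?_ hfx
  intro y hy
  exact hf y fun h => hy (mem_iInter.1 h n)

/-- The core estimate. -/
theorem core {I : Type w} [LinearOrder I]
    (hI : ∀ a : I, (Set.Iic a).Countable) (hunc : ¬ (Set.univ : Set I).Countable)
    {H : Type v} [AddGroup H] [TopologicalSpace H] (φ : Cp X →+ H) (hφ : SeqContinuous φ)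
    (c : NChain H) (U : X → Set X)
    (hU : ∀ x (f : Cp X), (∀ y ∉ U x, (f : X → ℝ) y = 0) → (f : X → ℝ) x = 0 → ∀ n, φ f ∈ c.W n)
    (x : I → X) (p : X → I) (hp : ∀ B : Set I, IsOpen (p ⁻¹' B)) (hpU : ∀ y, y ∈ U (x (p y))) :
    ∃ (F : Set I) (ε : ℝ), F.Finite ∧ 0 < ε ∧ ∀ f : Cp X, (∀ a ∈ F, |(f : X → ℝ) (x a)| < ε) →
      φ f ∈ c.W 0 := by
  classical
  -- (i) finitely supported functions
  have h1 : ∃ F : Set I, F.Finite ∧ ∀ y : I → ℝ, (Function.support y).Finite →
      (∀ a ∈ F, y a = 0) → φ (pull p hp y) ∈ c.W 3 := by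
    by_contra hcon
    push Not at hcon
    have step : ∀ F : {F : Set I // F.Finite}, ∃ y : I → ℝ, (Function.support y).Finite ∧
      (∀ a ∈ F.1, y a = 0) ∧ φ (pull p hp y) ∉ c.W 3 := fun F => hcon F.1 F.2
    choose Y hY1 hY2 hY3 using step
    let nxt : {F : Set I // F.Finite} → {F : Set I // F.Finite} := fun F =>
      ⟨F.1 ∪ Function.support (Y F), F.2.union (hY1 F)⟩
    let g : ℕ → {F : Set I // F.Finite} := fun n =>
      Nat.rec ⟨∅, Set.finite_empty⟩ (fun _ V => nxt V) n
    have hg1 : ∀ n, (g (n + 1)).1 = (g n).1 ∪ Function.support (Y (g n)) := fun n => rfl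
    have hg2 : ∀ k j, j < k → Function.support (Y (g j)) ⊆ (g k).1 := by
      intro k
      induction k with
      | zero => intro j hj; omega
      | succ k ih =>
        intro j hj
        rw [hg1]
        rcases Nat.lt_succ_iff_lt_or_eq.1 hj with h | h
        · exact (ih j h).trans Set.subset_union_left
        · subst h
          exact Set.subset_union_right
    have hlim : Tendsto (fun k => pull p hp (Y (g k))) atTop (𝓝 0) := by
      rw [Cp.tendsto_iff]
      intro z
      refine tendsto_const_nhds.congr' ?_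
      by_cases hy : ∃ j, Y (g j) (p z) ≠ 0
      · obtain ⟨j, hj⟩ := hy
        filter_upwards [eventually_gt_atTop j] with k hk
        exact (hY2 (g k) (p z) (hg2 k j hk hj)).symm
      · push Not at hy
        exact Eventually.of_forall fun k => (hy k).symm
    have h0 := hφ hlim
    rw [map_zero] at h0
    obtain ⟨k, hk⟩ := (h0.eventually (c.nhds 3)).exists
    exact hY3 (g k) hk
  obtain ⟨F, hFfin, hF⟩ := h1
  -- restriction of a pull back
  have hrp : ∀ (y : I → ℝ) (B : Set I), restr p hp (pull p hp y) B = pull p hp (B.indicator y) := by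
    intro y B
    apply Subtype.ext
    funext z
    by_cases hz : p z ∈ B
    · refine (restr_of_mem p hp _ hz).trans ?_
      show y (p z) = B.indicator y (p z)
      rw [Set.indicator_of_mem hz]
    · refine (restr_of_notMem p hp _ hz).trans ?_
      show 0 = B.indicator y (p z)
      rw [Set.indicator_of_notMem hz]
  -- (ii) arbitrary functions vanishing on F
  have h2 : ∀ y : I → ℝ, (∀ a ∈ F, y a = 0) → φ (pull p hp y) ∈ c.W 2 := by
    intro y hy
    let μ := setFn p hp φ hφ (pull p hp y)
    have hμ : ∀ B, μ.m B = φ (pull p hp (B.indicator y)) := fun B => by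
      show φ (restr p hp (pull p hp y) B) = _
      rw [hrp]
    obtain ⟨a, ha⟩ := μ.exists_tail (c.shift 3) hI hunc
    have e1 : pull p hp y = pull p hp ((Set.univ : Set I).indicator y) := by
      rw [Set.indicator_univ]
    rw [e1, ← hμ, ← Set.Iic_union_Ioi (a := a), μ.add _ _ (by
      rw [Set.disjoint_left]
      intro z hz1 hz2
      exact absurd hz1 (not_le.2 hz2))]
    refine c.add 2 _ _ ?_ ?_
    · refine μ.countable_mem (c.closed _) (hI a) ?_
      intro T _ hT
      rw [hμ]
      refine hF _ (hT.subset ?_) ?_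
      · intro z hz
        by_contra hzT
        exact hz (Set.indicator_of_notMem hzT _)
      · intro b hb
        by_cases hbT : b ∈ T
        · rw [Set.indicator_of_mem hbT]
          exact hy b hb
        · exact Set.indicator_of_notMem hbT _
    · exact ha _ Set.Subset.rfl
  -- (iii) functions supported on F
  have h3 : ∃ ε : ℝ, 0 < ε ∧ ∀ y : I → ℝ, (∀ a ∉ F, y a = 0) → (∀ a ∈ F, |y a| < ε) →
      φ (pull p hp y) ∈ c.W 1 := by
    by_contra hcon
    push Not at hcon
    have step : ∀ n : ℕ, ∃ y : I → ℝ, (∀ a ∉ F, y a = 0) ∧ (∀ a ∈ F, |y a| < 1 / ((n : ℝ) + 1)) ∧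
      φ (pull p hp y) ∉ c.W 1 := fun n => hcon (1 / ((n : ℝ) + 1)) (by positivity)
    choose Y hY1 hY2 hY3 using step
    have hlim : Tendsto (fun k => pull p hp (Y k)) atTop (𝓝 0) := by
      rw [Cp.tendsto_iff]
      intro z
      show Tendsto (fun k => Y k (p z)) atTop (𝓝 0)
      by_cases hz : p z ∈ F
      · rw [tendsto_zero_iff_abs_tendsto_zero]
        refine squeeze_zero (fun k => abs_nonneg _) (fun k => (hY2 k _ hz).le) ?_
        exact tendsto_one_div_add_atTop_nhds_zero_nat
      · refine tendsto_const_nhds.congr' ?_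
        exact Eventually.of_forall fun k => (hY1 k _ hz).symm
    have h0 := hφ hlim
    rw [map_zero] at h0
    obtain ⟨k, hk⟩ := (h0.eventually (c.nhds 1)).exists
    exact hY3 k hk
  obtain ⟨ε, hε, h3⟩ := h3
  refine ⟨F, ε, hFfin, hε, ?_⟩
  intro f hf
  -- decomposition
  let y : I → ℝ := fun a => (f : X → ℝ) (x a)
  let g : Cp X := f - pull p hp y
  have hg : ∀ n, φ g ∈ c.W n := by
    intro n
    let μ := setFn p hp φ hφ g
    have e1 : g = restr p hp g Set.univ := by
      apply Subtype.ext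
      funext z
      exact (restr_of_mem p hp g (Set.mem_univ _)).symm
    rw [e1]
    refine μ.null_of_singleton c hI hunc ?_ Set.univ n
    intro a k
    show φ (restr p hp g {a}) ∈ c.W k
    refine hU (x a) _ ?_ ?_ k
    · intro z hz
      apply restr_of_notMem
      intro hza
      have hza : p z = a := hza
      apply hz
      rw [← hza]
      exact hpU z
    · by_cases hxa : p (x a) ∈ ({a} : Set I)
      · rw [restr_of_mem p hp g hxa]
        show (f : X → ℝ) (x a) - (f : X → ℝ) (x (p (x a))) = 0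
        rw [show p (x a) = a from hxa, sub_self]
      · exact restr_of_notMem p hp g hxa
  have e2 : f = pull p hp (F.indicator y) + (pull p hp (Fᶜ.indicator y) + g) := by
    apply Subtype.ext
    funext z
    show (f : X → ℝ) z = F.indicator y (p z) + (Fᶜ.indicator y (p z) +
      ((f : X → ℝ) z - y (p z)))
    by_cases hz : p z ∈ F
    · rw [Set.indicator_of_mem hz, Set.indicator_of_notMem (show p z ∉ Fᶜ from fun h => h hz)]
      ring
    · rw [Set.indicator_of_notMem hz, Set.indicator_of_mem (show p z ∈ Fᶜ from hz)]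
      ring
  rw [e2, map_add, map_add]
  refine c.add 0 _ _ ?_ (c.add 1 _ _ ?_ (hg _))
  · refine h3 _ ?_ ?_
    · intro a ha
      exact Set.indicator_of_notMem ha _
    · intro a ha
      rw [Set.indicator_of_mem ha]
      exact hf a ha
  · refine h2 _ ?_
    intro a ha
    exact Set.indicator_of_notMem (show a ∉ Fᶜ from fun h => h ha) _

/-- An index set of order type `ω₁`. -/
theorem exists_index : ∃ (I : Type u) (_ : LinearOrder I) (_ : WellFoundedLT I), #I = ℵ₁ ∧
    (∀ a : I, (Set.Iic a).Countable) ∧ ¬ (Set.univ : Set I).Countable := by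
  refine ⟨(ord (ℵ₁ : Cardinal.{u})).ToType, inferInstance, inferInstance, ?_, ?_, ?_⟩
  · exact mk_ord_toType _
  · intro a
    have h1 : (Set.Iio a).Countable := by
      rw [countable_iff_lt_aleph_one]
      have := mk_Iio_lt a (by simp)
      simpa using this
    rw [← Set.Iio_union_right]
    exact h1.union (Set.countable_singleton a)
  · rw [countable_iff_lt_aleph_one, mk_univ, mk_ord_toType]
    exact lt_irrefl _

/-- The partition. -/
theorem exists_partition (hP : IsPSpace X) {I : Type w} [LinearOrder I] [WellFoundedLT I]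
    (hI : ∀ a : I, (Set.Iic a).Countable) (V : I → Set X) (hV : ∀ a, IsClopen (V a))
    (hcov : ∀ y, ∃ a, y ∈ V a) :
    ∃ p : X → I, (∀ B : Set I, IsOpen (p ⁻¹' B)) ∧ ∀ y, y ∈ V (p y) := by
  classical
  let p : X → I := fun y => WellFounded.min (wellFounded_lt (α := I)) {a | y ∈ V a} (hcov y)
  have hp1 : ∀ y, y ∈ V (p y) := fun y =>
    WellFounded.min_mem (wellFounded_lt (α := I)) {a | y ∈ V a} (hcov y)
  have hp2 : ∀ y a, y ∈ V a → p y ≤ a := fun y a h =>
    not_lt.1 (WellFounded.not_lt_min (wellFounded_lt (α := I)) {a | y ∈ V a} h)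
  refine ⟨p, ?_, hp1⟩
  intro B
  have hpt : ∀ a, IsOpen (p ⁻¹' {a}) := by
    intro a
    have : p ⁻¹' {a} = V a ∩ ⋂ b ∈ Set.Iio a, (V b)ᶜ := by
      ext y
      simp only [mem_preimage, mem_singleton_iff, mem_inter_iff, mem_iInter, mem_compl_iff, mem_Iio]
      constructor
      · rintro rfl
        exact ⟨hp1 y, fun b hb h => absurd (hp2 y b h) (not_le.2 hb)⟩
      · rintro ⟨h1, h2⟩
        refine le_antisymm (hp2 y a h1) ?_
        by_contra hcon
        push Not at hcon
        exact h2 _ hcon (hp1 y)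
    rw [this]
    refine (hV a).isOpen.inter (hP.biInter ((hI a).mono Set.Iio_subset_Iic_self) _ ?_)
    intro b _
    exact (hV b).compl.isOpen
  have : p ⁻¹' B = ⋃ a ∈ B, p ⁻¹' {a} := by
    ext y
    simp
  rw [this]
  exact isOpen_biUnion fun a _ => hpt a

/-- Main theorem for `C_p(X)`. -/
theorem Cp.isSGroup [RegularSpace X] (hP : IsPSpace X) (hL : LindelofNumberLeAlephOne X) :
    IsSGroup.{u, v} (Cp X) := by
  classical
  refine ⟨inferInstance, inferInstance, ?_⟩
  intro H _ _ _ _ φ hφ
  refine continuous_of_continuousAt_zero φ ?_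
  rw [ContinuousAt, map_zero]
  intro W hW
  rw [Filter.mem_map]
  by_cases hX : IsEmpty X
  · have : φ ⁻¹' W = Set.univ := by
      ext f
      simp only [mem_preimage, mem_univ, iff_true]
      have : f = 0 := Subtype.ext (funext fun x => (hX.false x).elim)
      rw [this, map_zero]
      exact mem_of_mem_nhds hW
    rw [this]
    exact univ_mem
  rw [not_isEmpty_iff] at hX
  obtain ⟨c, hc⟩ := NChain.exists_chain hW
  have hlc := fun x => local_control hP φ hφ c x
  choose U0 hU01 hU02 hU03 using hlc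
  have hclo := fun x => hP.exists_clopen (hU01 x) (hU02 x)
  choose U hU1 hU2 hU3 using hclo
  obtain ⟨I, _, _, hIcard, hI, hunc⟩ := exists_index.{u}
  obtain ⟨𝒱, h𝒱1, h𝒱2, h𝒱3⟩ := hL (Set.range U) (by
    rintro _ ⟨x, rfl⟩
    exact (hU1 x).isOpen) (by
    refine Set.eq_univ_of_forall fun x => ?_
    exact ⟨U x, ⟨x, rfl⟩, hU2 x⟩)
  have hne : Nonempty 𝒱 := by
    obtain ⟨x⟩ := hX
    have : x ∈ ⋃₀ 𝒱 := by rw [h𝒱3]; trivial
    obtain ⟨V, hV, -⟩ := this
    exact ⟨⟨V, hV⟩⟩
  have hsurj : ∃ s : I → 𝒱, Function.Surjective s := by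
    have hle : #𝒱 ≤ #I := by rw [hIcard]; exact h𝒱2
    obtain ⟨e⟩ := hle
    exact ⟨Function.invFun e, Function.invFun_surjective e.injective⟩
  obtain ⟨s, hs⟩ := hsurj
  have hx : ∀ a : I, ∃ x : X, U x = (s a).1 := fun a => h𝒱1 (s a).2
  choose x hx using hx
  obtain ⟨p, hp, hpU⟩ := exists_partition hP hI (fun a => U (x a)) (fun a => hU1 _) (by
    intro y
    have : y ∈ ⋃₀ 𝒱 := by rw [h𝒱3]; trivial
    obtain ⟨V, hV, hy⟩ := this
    obtain ⟨a, ha⟩ := hs ⟨V, hV⟩
    refine ⟨a, ?_⟩
    show y ∈ U (x a)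
    rw [hx, ha]
    exact hy)
  obtain ⟨F, ε, hF, hε, hcore⟩ := core hI hunc φ hφ c U (by
    intro x f hf hfx n
    refine hU03 x f ?_ hfx n
    intro y hy
    exact hf y fun h => hy (hU3 x h)) x p hp hpU
  have hopen : IsOpen {f : Cp X | ∀ a ∈ F, |(f : X → ℝ) (x a)| < ε} := by
    have : {f : Cp X | ∀ a ∈ F, |(f : X → ℝ) (x a)| < ε} =
        ⋂ a ∈ F, {f : Cp X | |(f : X → ℝ) (x a)| < ε} := by
      ext f
      simp only [mem_iInter]
      rfl
    rw [this]
    refine hF.isOpen_biInter fun a _ => ?_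
    refine isOpen_lt (continuous_abs.comp ?_) continuous_const
    exact (continuous_apply (x a)).comp continuous_subtype_val
  refine Filter.mem_of_superset (hopen.mem_nhds ?_) ?_
  · intro a _
    show |(0 : ℝ)| < ε
    rw [abs_zero]
    exact hε
  · intro f hf
    exact hc (hcore f hf)

end Main

section Compact

variable {X : Type u} [TopologicalSpace X]

/-- compact subsets of a `T₁` `P`-space are finite -/
theorem IsPSpace.finite_of_isCompact [T1Space X] (hP : IsPSpace X) {K : Set X}
    (hK : IsCompact K) : K.Finite := by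
  by_contra hinf
  have hinf : K.Infinite := hinf
  have hclosed : ∀ D : Set X, D.Countable → IsClosed D := by
    intro D hD
    rw [← isOpen_compl_iff]
    have : Dᶜ = ⋂ d ∈ D, ({d} : Set X)ᶜ := by
      ext x
      simp only [mem_compl_iff, mem_iInter, mem_singleton_iff]
      constructor
      · intro h d hd hxd
        exact h (hxd ▸ hd)
      · intro h hx
        exact h x hx rfl
    rw [this]
    exact hP.biInter hD _ fun d _ => isOpen_compl_singleton
  let e := Set.Infinite.natEmbedding K hinf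
  let D : Set X := Set.range fun n => (e n).1
  have hDc : D.Countable := Set.countable_range _
  have hDK : D ⊆ K := by
    rintro _ ⟨n, rfl⟩
    exact (e n).2
  have hDcomp : IsCompact D := hK.of_isClosed_subset (hclosed D hDc) hDK
  have hdisc : DiscreteTopology D := by
    rw [discreteTopology_iff_forall_isClosed]
    intro T
    rw [isClosed_induced_iff]
    refine ⟨Subtype.val '' T, hclosed _ (hDc.mono ?_), ?_⟩
    · rintro _ ⟨t, _, rfl⟩
      exact t.2
    · exact Set.preimage_image_eq _ Subtype.val_injective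
  have hfin : D.Finite := hDcomp.finite (by exact isDiscrete_iff_discreteTopology.2 hdisc)
  refine Set.infinite_range_of_injective ?_ hfin
  intro a b hab
  exact e.injective (Subtype.ext hab)

/-- the natural isomorphism between `C_c(X)` and `C_p(X)` -/
def toCp (X : Type u) [TopologicalSpace X] : C(X, ℝ) ≃+ Cp X where
  toFun := fun f => ⟨f, f.continuous⟩
  invFun := fun f => ⟨f.1, f.2⟩
  left_inv := fun _ => rfl
  right_inv := fun _ => rfl
  map_add' := fun _ _ => rfl

theorem continuous_toCp : Continuous (toCp X) := by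
  refine Continuous.subtype_mk ?_ _
  exact continuous_pi fun x => continuous_eval_const x

theorem continuous_toCp_symm (hX : ∀ K : Set X, IsCompact K → K.Finite) :
    Continuous (toCp X).symm := by
  rw [ContinuousMap.compactOpen_eq, continuous_generateFrom_iff]
  rintro _ ⟨K, hK, U, hU, rfl⟩
  have hKf := hX K hK
  have : (toCp X).symm ⁻¹' {f : C(X, ℝ) | Set.MapsTo f K U} =
      ⋂ x ∈ K, {f : Cp X | (f : X → ℝ) x ∈ U} := by
    ext f
    simp only [mem_preimage, mem_iInter]
    rfl
  rw [this]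
  refine hKf.isOpen_biInter fun x _ => ?_
  have hU' : IsOpen U := hU
  exact hU'.preimage ((continuous_apply x).comp continuous_subtype_val)

/-- transfer -/
theorem isSGroup_Cc (hX : ∀ K : Set X, IsCompact K → K.Finite) (h : IsSGroup.{u, v} (Cp X)) :
    IsSGroup.{u, v} C(X, ℝ) := by
  refine ⟨inferInstance, inferInstance, ?_⟩
  intro H _ _ _ _ φ hφ
  have h1 : SeqContinuous (φ.comp ((toCp X).symm : Cp X →+ C(X, ℝ))) := by
    intro f g hfg
    exact hφ (((continuous_toCp_symm hX).tendsto g).comp hfg)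
  have h2 := h.2.2 H _ h1
  have h3 : (φ : C(X, ℝ) → H) = (φ.comp ((toCp X).symm : Cp X →+ C(X, ℝ))) ∘ toCp X := by
    funext f
    rfl
  rw [h3]
  exact h2.comp continuous_toCp

/-- transfer of the Frechet-Urysohn property -/
theorem frechetUrysohn_Cp (hX : ∀ K : Set X, IsCompact K → K.Finite)
    (h : FrechetUrysohnSpace C(X, ℝ)) : FrechetUrysohnSpace (Cp X) := by
  refine ⟨fun s f hf => ?_⟩
  have h1 : (toCp X).symm f ∈ closure ((toCp X).symm '' s) :=
    image_closure_subset_closure_image (continuous_toCp_symm hX) ⟨f, hf, rfl⟩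
  rw [← seqClosure_eq_closure] at h1
  obtain ⟨g, hg1, hg2⟩ := h1
  refine ⟨fun n => toCp X (g n), fun n => ?_, ?_⟩
  · obtain ⟨t, ht, hgt⟩ := hg1 n
    show toCp X (g n) ∈ s
    rw [← hgt]
    exact ht
  · exact ((continuous_toCp (X := X)).tendsto ((toCp X).symm f)).comp hg2

end Compact

section Frechet

variable {X : Type u} [TopologicalSpace X]

/-- In a regular `P`-space `X`: if `C_p(X)` is Frechet-Urysohn then `X` is Lindelöf. -/
theorem lindelof_of_frechetUrysohn [RegularSpace X] (hP : IsPSpace X)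
    (h : FrechetUrysohnSpace (Cp X)) : LindelofSpace X := by
  classical
  refine ⟨?_⟩
  rw [isLindelof_iff_countable_subcover]
  intro ι U hU hcov
  -- functions: zero on a clopen neighbourhood of a finite set inside a finite union
  let E : Set (Cp X) := {f | ∃ J : Set ι, J.Finite ∧ ∀ x ∉ ⋃ i ∈ J, U i, (f : X → ℝ) x = 1}
  have h0 : (0 : Cp X) ∈ closure E := by
    rw [closure_subtype]
    rw [mem_closure_iff]
    intro O hO h0O
    obtain ⟨F, u, hu1, hu2⟩ := isOpen_pi_iff.1 hO _ h0O
    have hF : ∀ x ∈ F, ∃ i, x ∈ U i := fun x _ => mem_iUnion.1 (hcov (mem_univ x))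
    rcases isEmpty_or_nonempty X with hXe | ⟨⟨x0⟩⟩
    · refine ⟨0, h0O, ⟨0, ⟨∅, Set.finite_empty, fun x _ => (hXe.false x).elim⟩, rfl⟩⟩
    have : Nonempty ι := ⟨(mem_iUnion.1 (hcov (mem_univ x0))).choose⟩
    choose! i hi using hF
    have hx : ∀ x ∈ F, ∃ V : Set X, IsClopen V ∧ x ∈ V ∧ V ⊆ U (i x) := fun x hx =>
      hP.exists_clopen (hU _) (hi x hx)
    choose! V hV1 hV2 hV3 using hx
    have hclop : IsClopen (⋃ x ∈ F, V x) := by
      refine Set.Finite.isClopen_biUnion (Finset.finite_toSet F) ?_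
      exact hV1
    let f : Cp X := ⟨(⋃ x ∈ F, V x)ᶜ.indicator (fun _ => (1 : ℝ)), by
      refine Continuous.indicator ?_ continuous_const
      intro a ha
      rw [hclop.compl.frontier_eq] at ha
      exact ha.elim⟩
    refine ⟨f.1, hu2 ?_, ⟨f, ?_, rfl⟩⟩
    · intro x hx
      have : f.1 x = 0 := by
        show (⋃ x ∈ F, V x)ᶜ.indicator (fun _ => (1 : ℝ)) x = 0
        refine Set.indicator_of_notMem ?_ _
        intro hx'
        exact hx' (mem_biUnion hx (hV2 x hx))
      rw [this]
      exact (hu1 x hx).2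
    · refine ⟨i '' F, (Finset.finite_toSet F).image i, ?_⟩
      intro x hx
      show (⋃ x ∈ F, V x)ᶜ.indicator (fun _ => (1 : ℝ)) x = 1
      refine Set.indicator_of_mem ?_ _
      intro hx'
      apply hx
      obtain ⟨z, hz, hxz⟩ := mem_iUnion₂.1 hx'
      exact mem_iUnion₂.2 ⟨i z, ⟨z, hz, rfl⟩, hV3 z hz hxz⟩
  rw [← seqClosure_eq_closure] at h0
  obtain ⟨f, hf1, hf2⟩ := h0
  choose J hJ1 hJ2 using hf1
  refine ⟨⋃ n, J n, Set.countable_iUnion fun n => (hJ1 n).countable, ?_⟩
  intro x _
  rw [Cp.tendsto_iff] at hf2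
  have h1 : ∀ᶠ k in atTop, (f k : X → ℝ) x ∈ Set.Iio (1 : ℝ) := by
    refine (hf2 x).eventually (Iio_mem_nhds ?_)
    show (0 : ℝ) < 1
    exact one_pos
  obtain ⟨k, hk⟩ := h1.exists
  have hx : x ∈ ⋃ i ∈ J k, U i := by
    by_contra hcon
    have := hJ2 k x hcon
    rw [this] at hk
    exact lt_irrefl (1 : ℝ) hk
  obtain ⟨i, hi, hxi⟩ := mem_iUnion₂.1 hx
  exact mem_iUnion₂.2 ⟨i, mem_iUnion.2 ⟨k, hi⟩, hxi⟩

end Frechet

section Example

theorem discrete_isPSpace (X : Type u) [TopologicalSpace X] [DiscreteTopology X] :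
    IsPSpace X := fun _ _ => isOpen_discrete _

theorem lindelofNumber_of_card (X : Type u) [TopologicalSpace X] (hX : #X ≤ ℵ₁) :
    LindelofNumberLeAlephOne X := by
  intro 𝒰 _ hcov
  have h : ∀ x : X, ∃ U ∈ 𝒰, x ∈ U := by
    intro x
    have : x ∈ ⋃₀ 𝒰 := by rw [hcov]; trivial
    exact this
  choose U hU1 hU2 using h
  refine ⟨Set.range U, ?_, ?_, ?_⟩
  · rintro _ ⟨x, rfl⟩
    exact hU1 x
  · exact mk_range_le.trans hX
  · refine Set.eq_univ_of_forall fun x => ?_
    exact ⟨U x, ⟨x, rfl⟩, hU2 x⟩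

/-- a discrete space of size `ℵ₁` is not Lindelöf -/
theorem not_lindelof_discrete (X : Type u) [TopologicalSpace X] [DiscreteTopology X]
    (hX : ¬ (Set.univ : Set X).Countable) : ¬ LindelofSpace X := by
  intro h
  have h1 : IsLindelof (Set.univ : Set X) := h.isLindelof_univ
  exact hX (h1.countable (by infer_instance))

end Example

end Pool.Agent.Y445
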